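import Pool.Agent.X35.CM.Prob

/-!
# Primes with a fixed Frobenius trace for the curves `y² = x³ - n x`: one quarter of the primes `p` such that `4 p - t²` is a square,
for ALL `n` near `± α v_i`, outside a set of `α` of small dimension
-/

set_option autoImplicit false

namespace Pool.Agent.Results.MP_d74fca_nt.CongruentNumberCurves

open Finset

/-- The trace of Frobenius of `y² = x³ - n x` at an odd prime `p` not dividing `n`, `- ∑_{x mod p} ((x³ - n x) / p)`. -/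
def ap (n : ℤ) (p : ℕ) : ℤ := -∑ x ∈ range p, jacobiSym ((x : ℤ) ^ 3 - n * x) p

open Classical in
/-- The number of the primes `p ≤ x` not dividing `2 n` at which the trace of Frobenius of `y² = x³ - n x` is `t`. -/
noncomputable def traceCount (n t : ℤ) (x : ℕ) : ℕ :=
  ((range (x + 1)).filter (fun p : ℕ => p.Prime ∧ p ≠ 2 ∧ ¬ (p : ℤ) ∣ n ∧ ap n p = t)).card

open Classical in
/-- The number of the odd primes `p ≤ x` such that `4 p - t²` is a square. -/
noncomputable def squareCount (t : ℤ) (x : ℕ) : ℕ :=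
  ((range (x + 1)).filter (fun p : ℕ => p.Prime ∧ p ≠ 2 ∧ ∃ w : ℤ, t ^ 2 + w ^ 2 = 4 * p)).card

lemma card_Λ (x : ℕ) (hx : 2 ≤ x) : (((Icc (-((x : ℤ) ^ 2)) ((x : ℤ) ^ 2)).card : ℕ) : ℝ) ≤ (x : ℝ) ^ (4 : ℝ) := by
  have hxr : (2 : ℝ) ≤ x := by exact_mod_cast hx
  rw [Int.card_Icc]
  have e1 : ((((x : ℤ) ^ 2 + 1 - -((x : ℤ) ^ 2)).toNat : ℕ) : ℝ) = 2 * (x : ℝ) ^ 2 + 1 := by
    have e2 : (((((x : ℤ) ^ 2 + 1 - -((x : ℤ) ^ 2)).toNat : ℕ) : ℤ) : ℝ) = (((x : ℤ) ^ 2 + 1 - -((x : ℤ) ^ 2) : ℤ) : ℝ) := by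
      rw [Int.toNat_of_nonneg (by have : (0 : ℤ) ≤ (x : ℤ) ^ 2 := by positivity
                                  linarith)]
    rw [Int.cast_natCast] at e2
    rw [e2]
    push_cast
    ring
  rw [e1, show (4 : ℝ) = ((4 : ℕ) : ℝ) by norm_num, Real.rpow_natCast]
  have e3 : (4 : ℝ) ≤ (x : ℝ) ^ 2 := by nlinarith
  nlinarith

lemma ap_le (n : ℤ) (p : ℕ) : |ap n p| ≤ p := by
  unfold ap
  rw [abs_neg]
  refine (abs_sum_le_sum_abs _ _).trans ?_
  have h : ∀ x ∈ range p, |jacobiSym ((x : ℤ) ^ 3 - n * x) p| ≤ 1 := by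
    intro x _
    rcases jacobiSym.trichotomy ((x : ℤ) ^ 3 - n * x) p with h | h | h <;> rw [h] <;> norm_num
  refine (sum_le_sum h).trans ?_
  rw [sum_const, card_range, nsmul_eq_mul, mul_one]

open Classical in
lemma traceCount_eq (n t : ℤ) (x : ℕ) :
    traceCount n t x = ((((range (x + 1)).filter Nat.Prime).filter (fun p => Pool.Agent.X35.CM.HasTrace p t n))).card := by
  classical
  unfold traceCount
  rw [filter_filter]
  congr 1
  ext p
  simp only [mem_filter]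
  rfl

lemma squareCount_eq (t : ℤ) (x : ℕ) : squareCount t x = (Pool.Agent.X35.CM.reps t x).card := by
  classical
  unfold squareCount Pool.Agent.X35.CM.reps
  rw [filter_filter]

/-- Let `δ > 0`. There are `κ > 0` and `C > 0` such that for all reals `v_i ≥ 1` with `∑ v_i ^ (-u) < ∞` for all `u > τ` (`τ ≥ 0`; for
example `v_i = 2 ^ i`, `τ = 0`) and all `θ < 1` there is a set `E` of reals of Hausdorff dimension at most `(1 - κ + τ) / (1 - θ)` with the
following property. For every real `α > 0` outside `E`, all `i ≥ i₀(α)`, ALL integers `n` with `||n| - α v_i| ≤ v_i ^ θ`, ALL integers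
`x` with `(log |n|) ^ C ≤ x ≤ |n| ^ κ` and ALL integers `t ≠ 0`: the number of the primes `p ≤ x` with the trace of Frobenius `t` for
`y² = x³ - n x` differs from one quarter of the number `Q` of the odd primes `p ≤ x` such that `4 p - t²` is a square by at most
`(max 1 Q) ^ (1 / 2) x ^ δ + 2`. -/
theorem result (δ : ℝ) (hδ : 0 < δ) :
    ∃ κ C : ℝ, 0 < κ ∧ 0 < C ∧ ∀ (v : ℕ → ℝ) (τ θ : ℝ), (∀ i, 1 ≤ v i) → 0 ≤ τ → θ < 1 →
      (∀ u : ℝ, τ < u → Summable (fun i => v i ^ (-u))) →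
      ∃ E : Set ℝ, dimH E ≤ ENNReal.ofReal ((1 - κ + τ) / (1 - θ)) ∧
        ∀ α : ℝ, 0 < α → α ∉ E → ∃ i₀ : ℕ, ∀ i : ℕ, i₀ ≤ i →
          ∀ n : ℤ, |(|(n : ℝ)|) - α * v i| ≤ v i ^ θ →
            ∀ x : ℕ, Real.log |(n : ℝ)| ^ C ≤ x → (x : ℝ) ≤ |(n : ℝ)| ^ κ → ∀ t : ℤ, t ≠ 0 →
              |(traceCount n t x : ℝ) - squareCount t x / 4| ≤ √(max 1 (squareCount t x : ℝ)) * (x : ℝ) ^ δ + 2 := by
  classical
  obtain ⟨κ, hκ, hκ1, H⟩ := Pool.Agent.X35.GV.lawWin δ 4 1 hδ le_rfl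
  refine ⟨κ, 2 / δ, hκ, by positivity, fun v τ θ hv1 hτ hθ hv => ?_⟩
  obtain ⟨E, hE1, hE2⟩ := H v τ θ hv1 hτ hθ hv Unit ℤ (fun _ x => (Icc (-((x : ℤ) ^ 2)) ((x : ℤ) ^ 2)).erase 0)
    (fun _ x hx => le_trans (by exact_mod_cast card_le_card (erase_subset _ _)) (card_Λ x hx)) ℕ
    (fun _ x _ => (range (x + 1)).filter Nat.Prime) (fun _ _ p => p)
    (by
      intro c x l _ p hp
      rw [mem_filter, mem_range] at hp
      exact ⟨hp.2.two_le, by rw [pow_one]; omega⟩)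
    (by
      intro c x l _ p hp p' hp' hne
      rw [mem_filter] at hp hp'
      exact (Nat.coprime_primes hp.2 hp'.2).2 hne)
    (fun _ t p n => Pool.Agent.X35.CM.HasTrace p t n)
    (by
      intro c x t _ p _ m m' h
      exact Pool.Agent.X35.CM.hasTrace_congr p t h)
  refine ⟨E, hE1, fun α hα hαE => ?_⟩
  obtain ⟨i₀, hi₀⟩ := hE2 α hα hαE ()
  refine ⟨i₀, fun i hi n hn x hx1 hx2 t ht => ?_⟩
  obtain ⟨hs1, hs2⟩ := Pool.Agent.X35.CM.sum_prob t ht x
  obtain ⟨V, hV⟩ : ∃ V, V = ∑ p ∈ (range (x + 1)).filter Nat.Prime,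
    Pool.Agent.X35.GV.prob p (Pool.Agent.X35.CM.HasTrace p t) := ⟨_, rfl⟩
  rw [← hV, ← squareCount_eq] at hs1 hs2
  have hQ0 : (0 : ℝ) ≤ squareCount t x := Nat.cast_nonneg _
  have hsq : √(max 1 V) ≤ √(max 1 (squareCount t x : ℝ)) := by
    apply Real.sqrt_le_sqrt
    apply max_le_max le_rfl
    linarith
  have hxd : 0 ≤ (x : ℝ) ^ δ := by positivity
  by_cases ha : t ∈ Icc (-((x : ℤ) ^ 2)) ((x : ℤ) ^ 2)
  · have h := hi₀ i hi n hn x hx1 hx2 t (mem_erase.2 ⟨ht, ha⟩)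
    have h' : |(traceCount n t x : ℝ) - V| ≤ √(max 1 V) * (x : ℝ) ^ δ := by
      rw [traceCount_eq, hV]
      exact h
    have h2 : √(max 1 V) * (x : ℝ) ^ δ ≤ √(max 1 (squareCount t x : ℝ)) * (x : ℝ) ^ δ := mul_le_mul_of_nonneg_right hsq hxd
    have h3 := abs_le.1 (h'.trans h2)
    rw [abs_le]
    constructor <;> linarith [h3.1, h3.2]
  · have h1 : traceCount n t x = 0 := by
      unfold traceCount
      rw [card_eq_zero, filter_eq_empty_iff]
      intro p hp h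
      rw [mem_range] at hp
      apply ha
      rw [mem_Icc, ← abs_le, ← h.2.2.2]
      refine (ap_le n p).trans ?_
      have h3 : (p : ℤ) ≤ x := by exact_mod_cast (by omega : p ≤ x)
      have h4 : (1 : ℤ) ≤ p := by exact_mod_cast h.1.one_lt.le
      nlinarith
    have h2 : squareCount t x = 0 := by
      unfold squareCount
      rw [card_eq_zero, filter_eq_empty_iff]
      intro p hp h
      rw [mem_range] at hp
      apply ha
      obtain ⟨w, hw⟩ := h.2.2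
      rw [mem_Icc, ← abs_le]
      have h3 : (p : ℤ) ≤ x := by exact_mod_cast (by omega : p ≤ x)
      have h4 : (2 : ℤ) ≤ p := by exact_mod_cast h.1.two_le
      have h5 : t ^ 2 ≤ 4 * p := by nlinarith [sq_nonneg w]
      have h6 : t ^ 2 ≤ ((x : ℤ) ^ 2) ^ 2 := by
        have h7 : (2 : ℤ) ≤ x := by linarith
        have h8 : (4 : ℤ) ≤ (x : ℤ) ^ 2 := by nlinarith
        have h9 : (x : ℤ) ≤ (x : ℤ) ^ 2 := by nlinarith
        nlinarith
      exact abs_le_of_sq_le_sq h6 (by positivity)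
    rw [h1, h2, Nat.cast_zero, zero_div, sub_self, abs_zero]
    positivity

end Pool.Agent.Results.MP_d74fca_nt.CongruentNumberCurves
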