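import Pool.Agent.W406.TW.LT
import Pool.Agent.X283.DA.PackFam

/-!
# Primes with a given Frobenius trace for ALL quadratic twists by integers near real powers, or by
denominators of approximations, and all elliptic curves

Let `ε > 0`. There are `C > 0` and `0 < c ≤ 1 / 2` such that the following holds for all elliptic curves
`y² = x³ + A x + B` at once, for all `D = ± m` in the families below, `|D|` large, all
`(log |D|) ^ C ≤ x ≤ |D| ^ c` and all `t ≠ 0`: the number of the primes `p ≤ x` with the trace of Frobenius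
`t` for the quadratic twist `y² = x³ + A D² x + B D³` is `(n_t + n_(-t)) / 2` up to an error at most
`(n_t + n_(-t)) ^ (1 / 2) x ^ ε`, where `n_t` is the number of the primes `p ≤ x` with trace `t` for the
curve. The families (`s = 1 - c`):

* ALL `m` with `|m - u ^ κ_n| ≤ u ^ (θ κ_n)`, for almost all `u > 1`, if `s + θ < 1`, `κ_n / log n → ∞`;
* ALL `m` with `|m - n ^ u| ≤ n ^ (θ u)`, for almost all `u > 1 / (1 - s - θ)`;
* ALL `m` such that `m x_i` is within `m ^ (-θ_i)` of `y_i` modulo `1` for all `i`, if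
  `θ_1 + ... + θ_d > s`, for almost all `x ∈ ℝ ^ d`;

with bounds for the dimensions of the exceptional sets.
-/

set_option autoImplicit false

namespace Pool.Agent.Results.MP_d74fca_nt.PowersAndDenominators

open Finset
open Pool.Agent.X283.DA

/-- The trace of Frobenius of `y² = x³ + A x + B` at an odd prime `p` of good reduction, `- ∑_{x mod p} ((x³ + A x + B) / p)`. -/
def ap (A B : ℤ) (p : ℕ) : ℤ := -∑ x ∈ range p, jacobiSym ((x : ℤ) ^ 3 + A * x + B) p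

open Classical in
/-- The number of the primes `p ≤ x` not dividing `2 (4 A³ + 27 B²)` at which the trace of Frobenius of `y² = x³ + A x + B` is `t`. -/
noncomputable def piT (A B t : ℤ) (x : ℕ) : ℕ :=
  ((Icc 1 x).filter fun p : ℕ => p.Prime ∧ ¬ ((p : ℤ) ∣ 2 * (4 * A ^ 3 + 27 * B ^ 2)) ∧ ap A B p = t).card

/-- the exceptional twists -/
def bad (C c ε : ℝ) (AB : ℤ × ℤ) : Set ℤ :=
  {D : ℤ | D ≠ 0 ∧ ∃ x : ℕ, (Real.log |(D : ℝ)|) ^ C ≤ x ∧ (x : ℝ) ≤ |(D : ℝ)| ^ c ∧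
    ∃ t : ℤ, t ≠ 0 ∧ √((piT AB.1 AB.2 t x : ℝ) + piT AB.1 AB.2 (-t) x) * (x : ℝ) ^ ε <
      |(piT (AB.1 * D ^ 2) (AB.2 * D ^ 3) t x : ℝ) - (piT AB.1 AB.2 t x + piT AB.1 AB.2 (-t) x) / 2|}

theorem piT_eq (A B t : ℤ) (x : ℕ) : piT A B t x = Pool.Agent.W406.TW.piT A B t x := by
  classical
  unfold piT Pool.Agent.W406.TW.piT
  congr 1

/-- the part of `S` with absolute values in `[2 ^ i, 2 ^ (i + 1))` -/
def shell (S : Set ℤ) (i : ℕ) : Set ℤ := {a : ℤ | a ∈ S ∧ 2 ^ i ≤ |a| ∧ |a| < 2 ^ (i + 1)}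

/-- The assertion on the twists of `y² = x³ + A x + B`, `AB = (A, B)`, by both `D = ± m`. -/
def TwistsOk (C c ε : ℝ) (AB : ℤ × ℤ) (m : ℕ) : Prop :=
  ∀ D : ℤ, D ≠ 0 → D.natAbs = m → ∀ x : ℕ, (Real.log |(D : ℝ)|) ^ C ≤ x → (x : ℝ) ≤ |(D : ℝ)| ^ c →
    ∀ t : ℤ, t ≠ 0 →
      |(piT (AB.1 * D ^ 2) (AB.2 * D ^ 3) t x : ℝ) - (piT AB.1 AB.2 t x + piT AB.1 AB.2 (-t) x) / 2| ≤
        √((piT AB.1 AB.2 t x : ℝ) + piT AB.1 AB.2 (-t) x) * (x : ℝ) ^ ε

/-- **Theorem.** For every `ε > 0` there are `C > 0` and `0 < c ≤ 1 / 2` such that the properties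
`TwistsOk C c ε (A, B)` of natural numbers, for all integers `A, B` at once, hold near the real powers
`u ^ κ_n` and `n ^ u` (`FamAtPowers`, `FamAtExponents`) and for the denominators of good simultaneous
(inhomogeneous) rational approximations (`FamAtDenominators`, `FamAtApproximations`), with the exponent
`s = 1 - c`. -/
theorem result (ε : ℝ) (hε : 0 < ε) :
    ∃ C c : ℝ, 0 < C ∧ 0 < c ∧ c ≤ 1 / 2 ∧
      FamAtPowers (TwistsOk C c ε) (1 - c) ∧ FamAtExponents (TwistsOk C c ε) (1 - c) ∧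
      FamAtDenominators (TwistsOk C c ε) (1 - c) ∧ FamAtApproximations (TwistsOk C c ε) (1 - c) := by
  classical
  obtain ⟨C, c, hC, hc, N₀, H⟩ := Pool.Agent.W406.TW.lt_main ε hε
  set c' : ℝ := min c (1 / 2) with hc'
  have hc'0 : 0 < c' := lt_min hc (by norm_num)
  have hc'c : c' ≤ c := min_le_left _ _
  have hc'h : c' ≤ 1 / 2 := min_le_right _ _
  have hS : ∀ AB : ℤ × ℤ, ∃ C₁ : ℝ, ∃ i₁ : ℕ, ∀ i : ℕ, i₁ ≤ i →
      ((shell (bad (C + 1) c' ε AB) i).ncard : ℝ) ≤ C₁ * ((2 : ℝ) ^ i) ^ (1 - c') := by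
    intro AB
    obtain ⟨i₂, hi₂⟩ := exists_nat_gt ((2 : ℝ) ^ C * 2)
    refine ⟨2, N₀ + i₂ + 1, fun i hi => ?_⟩
    have hN : N₀ ≤ 2 ^ (i + 1) := by
      have h1 : i + 1 < 2 ^ (i + 1) := Nat.lt_two_pow_self
      omega
    have hN2 : (1 : ℝ) ≤ ((2 ^ (i + 1) : ℕ) : ℝ) := by exact_mod_cast Nat.one_le_two_pow
    have hsub : shell (bad (C + 1) c' ε AB) i ⊆
        {D : ℤ | D ≠ 0 ∧ |D| ≤ (2 ^ (i + 1) : ℕ) ∧ ∃ x : ℕ, (Real.log (2 ^ (i + 1) : ℕ)) ^ C ≤ x ∧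
          (x : ℝ) ≤ ((2 ^ (i + 1) : ℕ) : ℝ) ^ c ∧
        ∃ t : ℤ, t ≠ 0 ∧ √((Pool.Agent.W406.TW.piT AB.1 AB.2 t x : ℝ) + Pool.Agent.W406.TW.piT AB.1 AB.2 (-t) x) * (x : ℝ) ^ ε <
          |(Pool.Agent.W406.TW.piT (AB.1 * D ^ 2) (AB.2 * D ^ 3) t x : ℝ) -
            (Pool.Agent.W406.TW.piT AB.1 AB.2 t x + Pool.Agent.W406.TW.piT AB.1 AB.2 (-t) x) / 2|} := by
      rintro D ⟨⟨hD0, x, hx1, hx2, t, ht, hx3⟩, hD1, hD2⟩
      refine ⟨hD0, by exact_mod_cast hD2.le, x, ?_, ?_, t, ht, ?_⟩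
      · refine le_trans ?_ hx1
        have hDr : ((2 : ℝ)) ^ i ≤ |(D : ℝ)| := by exact_mod_cast hD1
        have h2 : (i : ℝ) * Real.log 2 ≤ Real.log |(D : ℝ)| := by
          rw [← Real.log_pow]
          exact Real.log_le_log (by positivity) hDr
        have hl2 : (1 : ℝ) / 2 ≤ Real.log 2 := by
          have := Real.log_two_gt_d9
          linarith
        have hl3 : Real.log 2 ≤ 1 := by
          have := Real.log_two_lt_d9
          linarith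
        have hir : ((2 : ℝ) ^ C * 2) ≤ i := by
          have h5 : (i₂ : ℝ) ≤ i := by exact_mod_cast (by omega : i₂ ≤ i)
          linarith
        have hi1 : (1 : ℝ) ≤ i := by exact_mod_cast (by omega : 1 ≤ i)
        have h3 : (2 : ℝ) ^ C ≤ Real.log |(D : ℝ)| := by nlinarith
        have h4 : 0 < Real.log |(D : ℝ)| := by nlinarith
        have h5 : Real.log ((2 ^ (i + 1) : ℕ) : ℝ) ≤ 2 * Real.log |(D : ℝ)| := by
          push_cast
          rw [Real.log_pow]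
          push_cast
          nlinarith
        calc (Real.log ((2 ^ (i + 1) : ℕ) : ℝ)) ^ C ≤ (2 * Real.log |(D : ℝ)|) ^ C :=
              Real.rpow_le_rpow (Real.log_nonneg hN2) h5 hC.le
          _ = 2 ^ C * (Real.log |(D : ℝ)|) ^ C := Real.mul_rpow (by norm_num) h4.le
          _ ≤ Real.log |(D : ℝ)| * (Real.log |(D : ℝ)|) ^ C := by gcongr
          _ = (Real.log |(D : ℝ)|) ^ (C + 1) := by rw [Real.rpow_add h4, Real.rpow_one]; ring
      · refine hx2.trans ?_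
        have h2 : |(D : ℝ)| ≤ ((2 ^ (i + 1) : ℕ) : ℝ) := by
          have := hD2.le
          exact_mod_cast this
        calc |(D : ℝ)| ^ c' ≤ ((2 ^ (i + 1) : ℕ) : ℝ) ^ c' := Real.rpow_le_rpow (abs_nonneg _) h2 hc'0.le
          _ ≤ ((2 ^ (i + 1) : ℕ) : ℝ) ^ c := Real.rpow_le_rpow_of_exponent_le hN2 hc'c
      · simpa only [piT_eq] using hx3
    have hfin : {D : ℤ | D ≠ 0 ∧ |D| ≤ (2 ^ (i + 1) : ℕ) ∧ ∃ x : ℕ, (Real.log (2 ^ (i + 1) : ℕ)) ^ C ≤ x ∧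
          (x : ℝ) ≤ ((2 ^ (i + 1) : ℕ) : ℝ) ^ c ∧
        ∃ t : ℤ, t ≠ 0 ∧ √((Pool.Agent.W406.TW.piT AB.1 AB.2 t x : ℝ) + Pool.Agent.W406.TW.piT AB.1 AB.2 (-t) x) * (x : ℝ) ^ ε <
          |(Pool.Agent.W406.TW.piT (AB.1 * D ^ 2) (AB.2 * D ^ 3) t x : ℝ) -
            (Pool.Agent.W406.TW.piT AB.1 AB.2 t x + Pool.Agent.W406.TW.piT AB.1 AB.2 (-t) x) / 2|}.Finite := by
      refine (Set.finite_Icc (-((2 ^ (i + 1) : ℕ) : ℤ)) ((2 ^ (i + 1) : ℕ) : ℤ)).subset ?_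
      rintro D ⟨-, h, -⟩
      exact abs_le.1 h
    have h1 := Set.ncard_le_ncard hsub hfin
    have h2 := H (2 ^ (i + 1)) hN AB.1 AB.2
    have h3 : ((shell (bad (C + 1) c' ε AB) i).ncard : ℝ) ≤ (((2 ^ (i + 1) : ℕ) : ℝ)) ^ (1 - c) := by
      refine le_trans ?_ h2
      exact_mod_cast h1
    refine h3.trans ?_
    calc (((2 ^ (i + 1) : ℕ) : ℝ)) ^ (1 - c) ≤ (((2 ^ (i + 1) : ℕ) : ℝ)) ^ (1 - c') :=
          Real.rpow_le_rpow_of_exponent_le hN2 (by linarith)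
      _ = (2 * (2 : ℝ) ^ i) ^ (1 - c') := by
          congr 1
          push_cast
          ring
      _ = 2 ^ (1 - c') * ((2 : ℝ) ^ i) ^ (1 - c') := Real.mul_rpow (by norm_num) (by positivity)
      _ ≤ 2 * ((2 : ℝ) ^ i) ^ (1 - c') := by
          have : (2 : ℝ) ^ (1 - c') ≤ 2 := by
            calc (2 : ℝ) ^ (1 - c') ≤ (2 : ℝ) ^ (1 : ℝ) := Real.rpow_le_rpow_of_exponent_le (by norm_num) (by linarith)
              _ = 2 := Real.rpow_one 2
          gcongr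
  refine ⟨C + 1, c', by linarith, hc'0, hc'h, pack_family (TwistsOk (C + 1) c' ε) (by linarith)
    fun AB => sparse_of_shell (Bad := bad (C + 1) c' ε AB) (by linarith) (fun m hm => ?_) (hS AB)⟩
  have hm' : ¬ TwistsOk (C + 1) c' ε AB m := hm
  unfold TwistsOk at hm'
  push Not at hm'
  obtain ⟨D, hD0, hDm, x, h1, h2, t, ht, h3⟩ := hm'
  exact ⟨D, ⟨hD0, x, h1, h2, t, ht, h3⟩, hDm⟩

end Pool.Agent.Results.MP_d74fca_nt.PowersAndDenominators
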