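import Pool.Agent.X20.Tr.Dyad
import Pool.Agent.Results.MP_d74fca_nt.TraceSigns

/-!
# Primes with a given Frobenius trace for the quadratic twists by `h ± ⌊α n ^ c⌋` of ALL elliptic curves

From Mathlib: `dimH E`: the Hausdorff dimension; `⌊x⌋₊`: the integer part; `Finset.Icc 1 N`: the integers from `1` to
`N`. From the team's `W406.TW`: `piT A B t x`: the number of the primes `p ≤ x` not dividing `2 (4 A ^ 3 + 27 B ^ 2)` at
which the trace of Frobenius of `y ^ 2 = x ^ 3 + A x + B` is equal to `t`.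
-/

set_option autoImplicit false

namespace Pool.Agent.Results.MP_d74fca_nt.TraceSignsSparseTwists

open Finset Filter
open Pool.Agent.X20.Tr
open Pool.Agent.W406.TW (piT)

/-- the twist `y ^ 2 = x ^ 3 + A D ^ 2 x + B D ^ 3` is exceptional: for some `x` between `(log |D|) ^ C` and `|D| ^ δ` and
some `t ≠ 0` the number of the primes `p ≤ x` with trace `t` for the twist differs from the half of the number `n` of the
primes `p ≤ x` with trace `t` or `-t` for `y ^ 2 = x ^ 3 + A x + B` by more than `√n x ^ ε` -/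
def Bad (A B : ℤ) (ε C δ : ℝ) (D : ℤ) : Prop :=
  D ≠ 0 ∧ ∃ x : ℕ, (Real.log |(D : ℝ)|) ^ C ≤ x ∧ (x : ℝ) ≤ |(D : ℝ)| ^ δ ∧ ∃ t : ℤ, t ≠ 0 ∧
    √((piT A B t x : ℝ) + piT A B (-t) x) * (x : ℝ) ^ ε <
      |(piT (A * D ^ 2) (B * D ^ 3) t x : ℝ) - (piT A B t x + piT A B (-t) x) / 2|

lemma Bad.mono {A B : ℤ} {ε ε' C δ δ' : ℝ} {D : ℤ} (h : Bad A B ε C δ D) (hε' : 0 < ε') (hε : ε' ≤ ε) (hδ : δ ≤ δ') :
    Bad A B ε' C δ' D := by
  obtain ⟨h0, x, h1, h2, t, h3, h4⟩ := h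
  have hD : (1 : ℝ) ≤ |(D : ℝ)| := by
    rw [← Int.cast_abs]
    exact_mod_cast Int.one_le_abs h0
  refine ⟨h0, x, h1, h2.trans (Real.rpow_le_rpow_of_exponent_le hD hδ), t, h3, lt_of_le_of_lt ?_ h4⟩
  apply mul_le_mul_of_nonneg_left _ (Real.sqrt_nonneg _)
  rcases Nat.eq_zero_or_pos x with rfl | hx
  · rw [Nat.cast_zero, Real.zero_rpow hε'.ne', Real.zero_rpow (by linarith)]
  · exact Real.rpow_le_rpow_of_exponent_le (by exact_mod_cast hx) hε

open Classical in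
/-- For every real `c > 1` there are `κ > 0` and a set `E` of real numbers of Hausdorff dimension at most `1 - κ` such
that for every `ε > 0` there are `C, δ > 0` such that for every real `α > 0` outside `E`, ALL integers `A`, `B`, all integers
`h` and both signs `s`: all but at most `N ^ (1 - δ)` of the `n ≤ N` (`N` large) have the property that `D = h + s ⌊α n ^ c⌋`
is not `Bad`, that is: for all `x` between `(log |D|) ^ C` and `|D| ^ δ` and all `t ≠ 0`, the number of the primes `p ≤ x`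
with trace of Frobenius `t` for the twist by `D` of `y ^ 2 = x ^ 3 + A x + B` is the mean of the numbers for the curve itself
at `t` and `-t`, with an error of the size of a square root. -/
theorem result (c : ℝ) (hc : 1 < c) : ∃ κ : ℝ, 0 < κ ∧ κ < 1 ∧ ∃ E : Set ℝ, dimH E ≤ ENNReal.ofReal (1 - κ) ∧
    ∀ ε : ℝ, 0 < ε → ∃ C δ : ℝ, 0 < C ∧ 0 < δ ∧ ∀ α : ℝ, 0 < α → α ∉ E →
      ∀ A B h s : ℤ, (s = 1 ∨ s = -1) → ∃ N₀ : ℕ, ∀ N : ℕ, N₀ ≤ N →
        (((Icc 1 N).filter (fun n : ℕ => Bad A B ε C δ (h + s * ((⌊α * (n : ℝ) ^ c⌋₊ : ℕ) : ℤ)))).card : ℝ) ≤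
          (N : ℝ) ^ (1 - δ) := by
  obtain ⟨κ, hκ0, hκ1, H⟩ := sparse_pow c hc
  have hin : ∀ k : ℕ, (0 : ℝ) < 1 / ((k : ℝ) + 1) := fun k => by positivity
  choose C d hC hd N₁ hN₁ using fun k : ℕ => TraceSigns.result (1 / ((k : ℝ) + 1)) (hin k)
  obtain ⟨E, hE, hh⟩ := H ((ℤ × ℤ) × ℕ)
    (fun i D => Bad i.1.1 i.1.2 (1 / ((i.2 : ℝ) + 1)) (C i.2 + 1) (min (d i.2) (1 / 2)) D)
  refine ⟨κ, hκ0, hκ1, E, hE, fun ε hε => ?_⟩
  obtain ⟨k, hk⟩ := exists_nat_one_div_lt hε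
  have hdk : 0 < min (d k) (1 / 2) := lt_min (hd k) (by norm_num)
  obtain ⟨δ, hδ⟩ : ∃ δ : ℝ, δ = min κ (min (d k) (1 / 2)) / 4 := ⟨_, rfl⟩
  have hδ0 : 0 < δ := by rw [hδ]; exact div_pos (lt_min hκ0 hdk) (by norm_num)
  have h4κ : 4 * δ ≤ κ := by
    rw [hδ]
    linarith [min_le_left κ (min (d k) (1 / 2))]
  have h4d : 4 * δ ≤ min (d k) (1 / 2) := by
    rw [hδ]
    linarith [min_le_right κ (min (d k) (1 / 2))]
  refine ⟨C k + 1, δ, by linarith [hC k], hδ0, fun α hα hαE A B h s hs => ?_⟩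
  obtain ⟨N₂, _, hN₂⟩ := log_range (C k) (hC k).le
  obtain ⟨N₀, hN₀⟩ := hh α hα hαE ((A, B), k) h s hs (min (d k) (1 / 2)) 1 hdk (min_le_right _ _)
    ⟨max (max (N₁ k) 1) N₂, fun N hN => by
      have hNa : N₁ k ≤ N := (le_max_left _ _).trans ((le_max_left _ _).trans hN)
      have hNb : (1 : ℝ) ≤ N := by exact_mod_cast (le_max_right _ _).trans ((le_max_left _ _).trans hN)
      have hNc := hN₂ N ((le_max_right _ _).trans hN)
      rw [one_mul]
      refine le_trans ?_ ((hN₁ k N hNa A B).trans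
        (Real.rpow_le_rpow_of_exponent_le hNb (by linarith [min_le_left (d k) (1 / 2)])))
      have hfin : {D : ℤ | D ≠ 0 ∧ |D| ≤ N ∧ ∃ x : ℕ, (Real.log N) ^ C k ≤ x ∧ (x : ℝ) ≤ (N : ℝ) ^ d k ∧
          ∃ t : ℤ, t ≠ 0 ∧ √((piT A B t x : ℝ) + piT A B (-t) x) * (x : ℝ) ^ (1 / ((k : ℝ) + 1)) <
            |(piT (A * D ^ 2) (B * D ^ 3) t x : ℝ) - (piT A B t x + piT A B (-t) x) / 2|}.Finite := by
        refine (Set.finite_Icc (-(N : ℤ)) N).subset fun D hD => ?_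
        have := abs_le.1 hD.2.1
        exact ⟨this.1, this.2⟩
      rw [Nat.cast_le]
      refine Set.ncard_le_ncard ?_ hfin
      rintro D ⟨⟨h0, x, h1, h2, t, h3, h4⟩, h5, h6⟩
      have h5' : (N : ℝ) < 2 * |(D : ℝ)| := by
        rw [← Int.cast_abs]
        exact_mod_cast h5
      have h6' : |(D : ℝ)| ≤ N := by
        rw [← Int.cast_abs]
        exact_mod_cast h6
      refine ⟨h0, h6, x, (hNc _ h5').trans h1, h2.trans ?_, t, h3, h4⟩
      have hD : (1 : ℝ) ≤ |(D : ℝ)| := by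
        rw [← Int.cast_abs]
        exact_mod_cast Int.one_le_abs h0
      calc |(D : ℝ)| ^ min (d k) (1 / 2) ≤ |(D : ℝ)| ^ d k :=
            Real.rpow_le_rpow_of_exponent_le hD (min_le_left _ _)
        _ ≤ (N : ℝ) ^ d k := Real.rpow_le_rpow (abs_nonneg _) h6' (hd k).le⟩
    δ hδ0.le (by linarith) (by linarith)
  refine ⟨N₀, fun N hN => le_trans ?_ (hN₀ N hN)⟩
  rw [Nat.cast_le]
  refine card_le_card fun n hn => ?_
  rw [mem_filter] at hn ⊢
  exact ⟨hn.1, hn.2.mono (hin k) hk.le (by linarith)⟩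

end Pool.Agent.Results.MP_d74fca_nt.TraceSignsSparseTwists
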